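import Mathlib
import Pool.Agent.H720R3.Blocks

set_option autoImplicit false

namespace Pool.Agent.Results.MP_90b327_co.BelowHalf

open Finset Pool.Agent.H720R3

/-- `cube d γ` is `γ^d`, the set of all `d`-tuples with entries in `γ`. -/
def cube {N : ℕ} (d : ℕ) (γ : Finset (Fin N)) : Finset (Fin d → Fin N) :=
  Fintype.piFinset (fun _ : Fin d => γ)

/-- A family `S` of subsets of `[N]^d` is good if there are `A ∈ S` and a nonempty `γ ⊆ [N]` with
`A ∩ γ^d = ∅` and `A ∪ γ^d ∈ S`. -/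
def Good {N d : ℕ} (S : Finset (Finset (Fin d → Fin N))) : Prop :=
  ∃ A ∈ S, ∃ γ : Finset (Fin N), γ.Nonempty ∧ Disjoint A (cube d γ) ∧ A ∪ cube d γ ∈ S

lemma not_good_up {N d : ℕ} {S : Finset (Finset (Fin d → Fin N))} (hS : ¬ Good S)
    {X Y : Finset (Fin d → Fin N)} (h : Up d X Y) : ¬ (X ∈ S ∧ Y ∈ S) := by
  rintro ⟨hX, hY⟩
  obtain ⟨γ, hγ, hd, rfl⟩ := h
  exact hS ⟨X, hX, γ, hγ, hd, hY⟩

lemma partA (d : ℕ) (hd : 1 ≤ d) (δ : ℝ)
    (hδ : ((2 : ℝ) ^ d - 1) / (2 ^ (d + 1) - 1) < δ) :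
    ∃ N₀ : ℕ, ∀ N : ℕ, N₀ ≤ N → ∀ S : Finset (Finset (Fin d → Fin N)),
      δ * (2 : ℝ) ^ (N ^ d) < S.card → Good S := by
  classical
  set q : ℕ := 2 ^ d - 1 with hq
  have h2d : 1 ≤ 2 ^ d := Nat.one_le_two_pow
  have hqR : (q : ℝ) = 2 ^ d - 1 := by rw [hq, Nat.cast_sub h2d]; push_cast; ring
  have hm : 2 ^ (d + 1) - 1 = 2 * q + 1 := by rw [pow_succ]; omega
  have hmR : (2 : ℝ) ^ (d + 1) - 1 = 2 * q + 1 := by rw [hqR, pow_succ]; ring
  rw [← hqR, hmR, div_lt_iff₀ (by positivity)] at hδ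
  obtain ⟨w, hw0, hwm, hw⟩ := (closed_walk hd).fn
  rw [hm] at hwm hw
  set c : ℕ := (d + 1) ^ d with hc
  -- choose M
  set κ : ℝ := δ * (2 * q + 1) - q with hκ
  have hκ0 : 0 < κ := by rw [hκ]; linarith
  obtain ⟨M, hM⟩ := exists_nat_gt ((((2 * q + 1 : ℝ) / κ) ^ 2) * 2 ^ c)
  refine ⟨M * (d + 1), fun N hN S hS => ?_⟩
  by_contra hgood
  set μ : ℝ := (M : ℝ) / 2 ^ c with hμ
  have hμ1 : ((2 * q + 1 : ℝ) / κ) ^ 2 < μ := by
    rw [hμ, lt_div_iff₀ (by positivity)]; exact hM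
  have hμ0 : 0 < μ := lt_of_le_of_lt (sq_nonneg _) hμ1
  have hsq : (2 * q + 1 : ℝ) / κ < Real.sqrt μ := by
    rw [Real.lt_sqrt (by positivity)]; exact hμ1
  set W : ℝ := 2 ^ Fintype.card (Fin d → Fin N) with hW
  have hWe : W = (2 : ℝ) ^ (N ^ d) := by rw [hW]; simp
  have hW0 : 0 < W := by positivity
  -- lower bound
  have hlow : ∀ i : ℕ, μ * S.card - Real.sqrt μ * W ≤
      ∑ A ∈ S, cnt (C d hN) (fun j => tr d hN j (w i)) A := fun i =>
    conc (C d hN) (fun j => tr d hN j (w i)) (fun j => tr_sub hN j _)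
      (fun j => by rw [card_C]) (C_disj hd hN) S
  -- upper bound
  have hup : ∑ i ∈ range (2 * q + 1), ∑ A ∈ S, cnt (C d hN) (fun j => tr d hN j (w i)) A
      ≤ q * μ * W := by
    have e1 : ∀ i : ℕ, ∑ A ∈ S, cnt (C d hN) (fun j => tr d hN j (w i)) A
        = ∑ j : Fin M, ∑ R ∈ univ.filter (fun R : Finset (Fin d → Fin N) => R ∩ C d hN j = ∅),
            if R ∪ tr d hN j (w i) ∈ S then (1 : ℝ) else 0 := by
      intro i
      unfold cnt
      rw [sum_comm]
      exact sum_congr rfl fun j _ => fibre S (C d hN j) _ (tr_sub hN j _)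
    rw [sum_congr rfl fun i _ => e1 i, sum_comm]
    have e2 : ∀ j : Fin M, ∑ i ∈ range (2 * q + 1),
        ∑ R ∈ univ.filter (fun R : Finset (Fin d → Fin N) => R ∩ C d hN j = ∅),
            (if R ∪ tr d hN j (w i) ∈ S then (1 : ℝ) else 0) ≤ q * (W / 2 ^ c) := by
      intro j
      rw [sum_comm]
      have e3 : ∀ R ∈ univ.filter (fun R : Finset (Fin d → Fin N) => R ∩ C d hN j = ∅),
          ∑ i ∈ range (2 * q + 1), (if R ∪ tr d hN j (w i) ∈ S then (1 : ℝ) else 0) ≤ q := by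
        intro R hR
        rw [mem_filter] at hR
        have hRd : Disjoint R (C d hN j) := disjoint_iff_inter_eq_empty.2 hR.2
        refine odd_count q (fun i => if R ∪ tr d hN j (w i) ∈ S then (1 : ℝ) else 0) ?_ ?_ ?_
        · intro i
          by_cases h : R ∪ tr d hN j (w i) ∈ S
          · right; simp [h]
          · left; simp [h]
        · intro i hi
          have hno : ¬ (R ∪ tr d hN j (w i) ∈ S ∧ R ∪ tr d hN j (w (i + 1)) ∈ S) := by
            rcases hw i hi with h | h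
            · exact not_good_up hgood (adj_tr hN j R hRd h)
            · intro h'
              exact not_good_up hgood (adj_tr hN j R hRd h) ⟨h'.2, h'.1⟩
          by_cases h1 : R ∪ tr d hN j (w i) ∈ S <;> by_cases h2 : R ∪ tr d hN j (w (i + 1)) ∈ S
          · exact absurd ⟨h1, h2⟩ hno
          · simp [h1, h2]
          · simp [h1, h2]
          · simp [h1, h2]
        · simp only [hwm, hw0]
      calc _ ≤ ∑ _R ∈ univ.filter (fun R : Finset (Fin d → Fin N) => R ∩ C d hN j = ∅), (q : ℝ) :=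
            sum_le_sum e3
        _ = _ := by
          rw [sum_const, nsmul_eq_mul, mul_comm]
          congr 1
          have := card_trace (C d hN j) ∅ (empty_subset _)
          rw [card_C] at this
          rw [eq_div_iff (by positivity)]
          exact this
    calc _ ≤ ∑ _j : Fin M, (q : ℝ) * (W / 2 ^ c) := sum_le_sum fun j _ => e2 j
      _ = q * μ * W := by
        simp only [sum_const, card_univ, Fintype.card_fin, nsmul_eq_mul, hμ]
        ring
  have hlow' : (2 * q + 1 : ℝ) * (μ * S.card - Real.sqrt μ * W) ≤ q * μ * W := by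
    refine le_trans ?_ hup
    calc (2 * q + 1 : ℝ) * (μ * S.card - Real.sqrt μ * W)
        = ∑ _i ∈ range (2 * q + 1), (μ * S.card - Real.sqrt μ * W) := by
          simp only [sum_const, card_range, nsmul_eq_mul]
          push_cast
          ring
      _ ≤ _ := sum_le_sum fun i _ => hlow i
  rw [← hWe] at hS
  have h7 : μ * (δ * W) < μ * S.card := mul_lt_mul_of_pos_left hS hμ0
  have h8 : (2 * q + 1 : ℝ) * (μ * (δ * W) - Real.sqrt μ * W) < q * μ * W := by
    refine lt_of_lt_of_le ?_ hlow'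
    refine mul_lt_mul_of_pos_left ?_ (by positivity)
    linarith
  have h9 : (μ * κ) < (2 * q + 1 : ℝ) * Real.sqrt μ := by
    have : (μ * κ) * W < (2 * q + 1 : ℝ) * Real.sqrt μ * W := by
      rw [hκ]; linarith
    exact lt_of_mul_lt_mul_right this hW0.le
  have hs : Real.sqrt μ * Real.sqrt μ = μ := Real.mul_self_sqrt hμ0.le
  have hs0 : 0 < Real.sqrt μ := Real.sqrt_pos.2 hμ0
  have h10 : Real.sqrt μ * κ < 2 * q + 1 := by
    have : Real.sqrt μ * κ * Real.sqrt μ < (2 * q + 1 : ℝ) * Real.sqrt μ := by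
      calc Real.sqrt μ * κ * Real.sqrt μ = (Real.sqrt μ * Real.sqrt μ) * κ := by ring
        _ = μ * κ := by rw [hs]
        _ < _ := h9
    exact lt_of_mul_lt_mul_right this hs0.le
  rw [div_lt_iff₀ hκ0] at hsq
  linarith

/-- For every `d ≥ 1` the restricted density polynomial Hales-Jewett statement holds for all densities
above `(2^d - 1)/(2^(d+1) - 1)`, which is less than `1/2` (it is `3/7` for `d = 2`). -/
theorem result : ∀ d : ℕ, 1 ≤ d → ∀ δ : ℝ, ((2 : ℝ) ^ d - 1) / (2 ^ (d + 1) - 1) < δ →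
    ∃ N₀ : ℕ, ∀ N : ℕ, N₀ ≤ N → ∀ S : Finset (Finset (Fin d → Fin N)),
      δ * (2 : ℝ) ^ (N ^ d) < S.card → Good S :=
  partA

end Pool.Agent.Results.MP_90b327_co.BelowHalf
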