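import Pool.Agent.H91R3.PHJLower2

/-!
# Exponential lower bounds for the restricted density polynomial Hales-Jewett function

For every `d ≥ 1`, every prime `p ≤ 2d+1`, every `i ≥ 0`, `t ≤ p^(i(d-1))` and every
`N ≤ 2^(p^(i(d-1)) - t)` there is a family of at least `(⌊p/2⌋/p)^i (1 - 2^(-t p^i)) 2^(N^d)`
subsets of `[N]^d` which is not good.

Idea: most subsets of `[N]^d` meet every `γ^d` with `|γ| = p^i`, so that in the family of these sets
only moves with `|γ| < p^i` have to be excluded; these are excluded by a congruence condition on the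
number of points of `A` on a `⌊p/2⌋`-dimensional diagonal, with a set of residues which contains no
two elements differing by `k^⌊p/2⌋`, `1 ≤ k < p^i` (Ruzsa's digit construction).
-/

namespace Pool.Agent.Results.MP_90b327_co.ExponentialLower

open Pool.Agent.H91R3.PHJ

theorem result (d p i t N : ℕ) (hd : 1 ≤ d) (hp : p.Prime) (hpd : p ≤ 2 * d + 1)
    (ht : t ≤ p ^ (i * (d - 1))) (hN : N ≤ 2 ^ (p ^ (i * (d - 1)) - t)) :
    ∃ S : Finset (Finset (Fin d → Fin N)),
      (((p / 2 : ℕ) : ℝ) / p) ^ i * (1 - (1 / 2 : ℝ) ^ (t * p ^ i)) * 2 ^ (N ^ d) ≤ (S.card : ℝ) ∧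
      ¬ ∃ A ∈ S, ∃ γ : Finset (Fin N), γ.Nonempty ∧
          Disjoint A (Fintype.piFinset (fun _ : Fin d => γ)) ∧
          A ∪ Fintype.piFinset (fun _ : Fin d => γ) ∈ S := by
  obtain ⟨S, hS, hc⟩ := lower (d := d) (p := p) (i := i) (N := N) hp hpd
  refine ⟨S, le_trans ?_ hc, hS⟩
  rw [mul_assoc]
  apply mul_le_mul_of_nonneg_left _ (by positivity)
  apply mul_le_mul_of_nonneg_right _ (by positivity)
  have h1 : (N : ℝ) ^ (p ^ i) ≤ (2 : ℝ) ^ ((p ^ (i * (d - 1)) - t) * p ^ i) := by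
    rw [pow_mul]
    apply pow_le_pow_left₀ (by positivity)
    exact_mod_cast hN
  have h2 : (p ^ (i * (d - 1)) - t) * p ^ i + t * p ^ i = (p ^ i) ^ d := by
    rw [← add_mul, Nat.sub_add_cancel ht, ← pow_mul, ← pow_add]
    congr 1
    obtain ⟨e, rfl⟩ : ∃ e, d = e + 1 := ⟨d - 1, by omega⟩
    simp only [Nat.add_sub_cancel]
    ring
  have h3 : (N : ℝ) ^ (p ^ i) / 2 ^ ((p ^ i) ^ d) ≤ (1 / 2 : ℝ) ^ (t * p ^ i) := by
    rw [div_le_iff₀ (by positivity), ← h2, pow_add, one_div, inv_pow]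
    calc (N : ℝ) ^ (p ^ i) ≤ (2 : ℝ) ^ ((p ^ (i * (d - 1)) - t) * p ^ i) := h1
      _ = _ := by field_simp
  linarith

end Pool.Agent.Results.MP_90b327_co.ExponentialLower
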