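import Mathlib
import Pool.Agent.H720R3.Blocks
import Pool.Agent.H720R3.Plant2

set_option autoImplicit false

namespace Pool.Agent.Results.MP_90b327_co.FractionalColouring

open Finset Pool.Agent.H720R3

/-- `cube d γ` is `γ^d`, the set of all `d`-tuples with entries in `γ`. -/
def cube {N : ℕ} (d : ℕ) (γ : Finset (Fin N)) : Finset (Fin d → Fin N) :=
  Fintype.piFinset (fun _ : Fin d => γ)

/-- A family `S` of subsets of `[N]^d` is good if there are `A ∈ S` and a nonempty `γ ⊆ [N]` with
`A ∩ γ^d = ∅` and `A ∪ γ^d ∈ S`. -/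
def Good {N d : ℕ} (S : Finset (Finset (Fin d → Fin N))) : Prop :=
  ∃ A ∈ S, ∃ γ : Finset (Fin N), γ.Nonempty ∧ Disjoint A (cube d γ) ∧ A ∪ cube d γ ∈ S

/-- `Cover n d δ`: there is a probability distribution `p` on the families of subsets of `[n]^d` that
are not good such that a `p`-random family contains each given `A ⊆ [n]^d` with probability at
least `δ` (a fractional colouring of total weight `1/δ`). -/
def Cover (n d : ℕ) (δ : ℝ) : Prop :=
  ∃ p : Finset (Finset (Fin d → Fin n)) → ℝ, (∀ F, 0 ≤ p F) ∧ (∀ F, Good F → p F = 0) ∧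
    ∑ F, p F = 1 ∧ ∀ A : Finset (Fin d → Fin n), δ ≤ ∑ F, if A ∈ F then p F else 0

/-- `Weight n d δ`: there are weights `w ≥ 0` with sum `1` on the subsets of `[n]^d` such that every
family that is not good has weight less than `δ`. -/
def Weight (n d : ℕ) (δ : ℝ) : Prop :=
  ∃ w : Finset (Fin d → Fin n) → ℝ, (∀ A, 0 ≤ w A) ∧ ∑ A, w A = 1 ∧
    ∀ F : Finset (Finset (Fin d → Fin n)), ¬ Good F → ∑ A ∈ F, w A < δ

lemma not_good_empty {N d : ℕ} : ¬ Good (∅ : Finset (Finset (Fin d → Fin N))) := by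
  rintro ⟨A, hA, -⟩
  exact absurd hA (notMem_empty A)

/-- duality -/
lemma weight_of_not_cover (n d : ℕ) (δ : ℝ) (h : ¬ Cover n d δ) : Weight n d δ := by
  classical
  set V := Finset (Fin d → Fin n) with hV
  -- the linear map
  let L : (Finset V → ℝ) →ₗ[ℝ] (V → ℝ) :=
    { toFun := fun p A => ∑ F, if A ∈ F then p F else 0
      map_add' := by
        intro p q
        funext A
        simp only [Pi.add_apply]
        rw [← sum_add_distrib]
        refine sum_congr rfl fun F _ => ?_
        split_ifs <;> simp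
      map_smul' := by
        intro a p
        funext A
        simp only [Pi.smul_apply, smul_eq_mul, RingHom.id_apply]
        rw [mul_sum]
        refine sum_congr rfl fun F _ => ?_
        split_ifs <;> simp }
  have hLc : Continuous L := LinearMap.continuous_of_finiteDimensional L
  let K : Set (Finset V → ℝ) := stdSimplex ℝ (Finset V) ∩ {p | ∀ F, Good F → p F = 0}
  have hKclosed : IsClosed {p : Finset V → ℝ | ∀ F, Good F → p F = 0} := by
    simp only [Set.ofPred_forall]
    refine isClosed_iInter fun F => isClosed_iInter fun _ => ?_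
    exact isClosed_eq (continuous_apply F) continuous_const
  have hKconv0 : Convex ℝ {p : Finset V → ℝ | ∀ F, Good F → p F = 0} := by
    intro p hp q hq a b _ _ _ F hF
    simp [hp F hF, hq F hF]
  have hKcomp : IsCompact K := (isCompact_stdSimplex ℝ (Finset V)).inter_right hKclosed
  have hKconv : Convex ℝ K := (convex_stdSimplex ℝ (Finset V)).inter hKconv0
  let T : Set (V → ℝ) := {v | ∀ A, δ ≤ v A}
  have hTclosed : IsClosed T := by
    simp only [T, Set.ofPred_forall]
    exact isClosed_iInter fun A => isClosed_le continuous_const (continuous_apply A)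
  have hTconv : Convex ℝ T := by
    intro p hp q hq a b ha hb hab A
    have h1 := hp A
    have h2 := hq A
    simp only [Pi.add_apply, Pi.smul_apply, smul_eq_mul]
    calc δ = a * δ + b * δ := by rw [← add_mul, hab, one_mul]
      _ ≤ _ := add_le_add (mul_le_mul_of_nonneg_left h1 ha) (mul_le_mul_of_nonneg_left h2 hb)
  have hdisj : Disjoint (L '' K) T := by
    rw [Set.disjoint_left]
    rintro v ⟨p, hp, rfl⟩ hv
    exact h ⟨p, hp.1.1, hp.2, hp.1.2, hv⟩
  obtain ⟨f, u, v, hfu, huv, hfv⟩ := geometric_hahn_banach_compact_closed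
    (hKconv.linear_image L) (hKcomp.image hLc) hTconv hTclosed hdisj
  -- coefficients
  let a : V → ℝ := fun A => f (Pi.single A 1)
  have hf : ∀ x : V → ℝ, f x = ∑ A, a A * x A := by
    intro x
    have hx : x = ∑ A, x A • (Pi.single A (1 : ℝ) : V → ℝ) := by
      funext B
      rw [Finset.sum_apply, Finset.sum_eq_single B]
      · simp
      · intro A _ hA
        simp [Pi.single_apply, hA.symm]
      · intro h; exact absurd (mem_univ B) h
    conv_lhs => rw [hx]
    rw [map_sum]
    refine sum_congr rfl fun A _ => ?_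
    rw [map_smul, smul_eq_mul, mul_comm]
  have ha0 : ∀ A, 0 ≤ a A := by
    intro A
    by_contra hneg
    push Not at hneg
    -- take a large multiple
    let x : ℝ → (V → ℝ) := fun t => (fun _ => δ) + t • (Pi.single A (1 : ℝ) : V → ℝ)
    have hx : ∀ t : ℝ, 0 ≤ t → x t ∈ T := by
      intro t ht B
      simp only [x, Pi.add_apply, Pi.smul_apply, smul_eq_mul]
      by_cases hB : B = A
      · subst hB; simp [ht]
      · simp [hB]
    have hfx : ∀ t : ℝ, f (x t) = f (fun _ => δ) + t * a A := by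
      intro t
      simp only [x, map_add, map_smul, smul_eq_mul, a]
    obtain ⟨t, ht⟩ := exists_nat_gt ((f (fun _ => δ) - v) / (- a A))
    have h1 := hfv (x t) (hx t (Nat.cast_nonneg t))
    rw [hfx] at h1
    rw [div_lt_iff₀ (by linarith)] at ht
    linarith
  have h0K : (0 : V → ℝ) ∈ L '' K := by
    refine ⟨Pi.single ∅ 1, ⟨single_mem_stdSimplex ℝ _, ?_⟩, ?_⟩
    · intro F hF
      have : F ≠ ∅ := by
        rintro rfl
        exact not_good_empty hF
      simp [this]
    · funext A
      change ∑ F, (if A ∈ F then (Pi.single (∅ : Finset V) (1 : ℝ) : Finset V → ℝ) F else 0) = 0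
      refine sum_eq_zero fun F _ => ?_
      by_cases hF : F = ∅
      · subst hF; simp
      · simp [hF]
  have hu0 : 0 < u := by
    have := hfu 0 h0K
    simpa using this
  have hs : v < δ * ∑ A, a A := by
    have := hfv (fun _ => δ) (fun _ => le_rfl)
    rw [hf] at this
    rw [mul_sum]
    refine lt_of_lt_of_eq this ?_
    exact sum_congr rfl fun A _ => mul_comm _ _
  have hs0 : 0 ≤ ∑ A, a A := sum_nonneg fun A _ => ha0 A
  have hs1 : 0 < ∑ A, a A := by
    rcases hs0.eq_or_lt with h1 | h1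
    · rw [← h1, mul_zero] at hs
      linarith
    · exact h1
  refine ⟨fun A => a A / ∑ B, a B, fun A => div_nonneg (ha0 A) hs0, ?_, ?_⟩
  · rw [← sum_div, div_self hs1.ne']
  · intro F hF
    rw [← sum_div, div_lt_iff₀ hs1]
    have hFK : (fun A => if A ∈ F then (1 : ℝ) else 0) ∈ L '' K := by
      refine ⟨Pi.single F 1, ⟨single_mem_stdSimplex ℝ _, ?_⟩, ?_⟩
      · intro F' hF'
        have : F' ≠ F := by
          rintro rfl
          exact hF hF'
        simp [this]
      · funext A
        change ∑ F', (if A ∈ F' then (Pi.single F (1 : ℝ) : Finset V → ℝ) F' else 0) = _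
        rw [Finset.sum_eq_single F]
        · simp
        · intro F' _ hF'
          simp [hF']
        · intro h; exact absurd (mem_univ F) h
    have h1 := hfu _ hFK
    rw [hf] at h1
    have h2 : ∑ A, a A * (if A ∈ F then (1 : ℝ) else 0) = ∑ A ∈ F, a A := by
      rw [← Finset.sum_subset (subset_univ F)
        (f := fun A => a A * (if A ∈ F then (1 : ℝ) else 0))]
      · exact sum_congr rfl fun A hA => by rw [if_pos hA, mul_one]
      · intro A _ hA
        rw [if_neg hA, mul_zero]
    rw [h2] at h1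
    linarith

/-- transfer from a block to a large cube, with explicit error term -/
lemma transfer (n d : ℕ) (hd : 1 ≤ d) (α : ℝ) (w : Finset (Fin d → Fin n) → ℝ)
    (hw0 : ∀ A, 0 ≤ w A) (hw1 : ∑ A, w A = 1)
    (hw : ∀ F : Finset (Finset (Fin d → Fin n)), ¬ Good F → ∑ A ∈ F, w A ≤ α)
    (M N : ℕ) (hM : 0 < M) (hN : M * n ≤ N) (S : Finset (Finset (Fin d → Fin N)))
    (hgood : ¬ Good S) :
    (S.card : ℝ) ≤ (α + Real.sqrt (2 ^ (n ^ d) / M)) * 2 ^ (N ^ d) := by
  classical
  set c : ℕ := n ^ d with hc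
  set μ : ℝ := (M : ℝ) / 2 ^ c with hμ
  have hM' : (0 : ℝ) < M := by exact_mod_cast hM
  have hμ0 : 0 < μ := by positivity
  set W : ℝ := 2 ^ Fintype.card (Fin d → Fin N) with hW
  have hWe : W = (2 : ℝ) ^ (N ^ d) := by rw [hW]; simp
  have hW0 : 0 < W := by positivity
  have hlow : ∀ X : Finset (Fin d → Fin n), μ * S.card - Real.sqrt μ * W ≤
      ∑ A ∈ S, cnt (C d hN) (fun j => tr d hN j X) A := fun X =>
    conc (C d hN) (fun j => tr d hN j X) (fun j => tr_sub hN j _)
      (fun j => by rw [card_C]) (C_disj hd hN) S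
  have hlow' : μ * S.card - Real.sqrt μ * W ≤
      ∑ X, w X * ∑ A ∈ S, cnt (C d hN) (fun j => tr d hN j X) A := by
    calc μ * S.card - Real.sqrt μ * W = ∑ X, w X * (μ * S.card - Real.sqrt μ * W) := by
          rw [← sum_mul, hw1, one_mul]
      _ ≤ _ := sum_le_sum fun X _ => mul_le_mul_of_nonneg_left (hlow X) (hw0 X)
  have hup : ∑ X, w X * ∑ A ∈ S, cnt (C d hN) (fun j => tr d hN j X) A ≤ μ * α * W := by
    have e1 : ∀ X : Finset (Fin d → Fin n),
        w X * ∑ A ∈ S, cnt (C d hN) (fun j => tr d hN j X) A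
        = ∑ j : Fin M, ∑ R ∈ univ.filter (fun R : Finset (Fin d → Fin N) => R ∩ C d hN j = ∅),
            if R ∪ tr d hN j X ∈ S then w X else 0 := by
      intro X
      unfold cnt
      rw [sum_comm, mul_sum]
      refine sum_congr rfl fun j _ => ?_
      rw [fibre S (C d hN j) _ (tr_sub hN j _), mul_sum]
      refine sum_congr rfl fun R _ => ?_
      split_ifs <;> simp
    rw [sum_congr rfl fun X _ => e1 X, sum_comm]
    have e2 : ∀ j : Fin M, ∑ X : Finset (Fin d → Fin n),
        ∑ R ∈ univ.filter (fun R : Finset (Fin d → Fin N) => R ∩ C d hN j = ∅),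
            (if R ∪ tr d hN j X ∈ S then w X else 0) ≤ α * (W / 2 ^ c) := by
      intro j
      rw [sum_comm]
      have e3 : ∀ R ∈ univ.filter (fun R : Finset (Fin d → Fin N) => R ∩ C d hN j = ∅),
          ∑ X : Finset (Fin d → Fin n), (if R ∪ tr d hN j X ∈ S then w X else 0) ≤ α := by
        intro R hR
        rw [mem_filter] at hR
        have hRd : Disjoint R (C d hN j) := disjoint_iff_inter_eq_empty.2 hR.2
        have h1 := hw (univ.filter fun X => R ∪ tr d hN j X ∈ S) ?_
        · rw [sum_filter] at h1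
          exact h1
        · rintro ⟨X, hX, γ, hγ, hdis, hXγ⟩
          rw [mem_filter] at hX hXγ
          have hUp : Up d X (X ∪ cube d γ) := ⟨γ, hγ, hdis, rfl⟩
          obtain ⟨γ', hγ', hdis', heq⟩ := adj_tr hN j R hRd hUp
          refine hgood ⟨_, hX.2, γ', hγ', hdis', ?_⟩
          have h2 := hXγ.2
          rw [heq] at h2
          exact h2
      calc _ ≤ ∑ _R ∈ univ.filter (fun R : Finset (Fin d → Fin N) => R ∩ C d hN j = ∅), α :=
            sum_le_sum e3
        _ = _ := by
          rw [sum_const, nsmul_eq_mul, mul_comm]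
          congr 1
          have := card_trace (C d hN j) ∅ (empty_subset _)
          rw [card_C] at this
          rw [eq_div_iff (by positivity)]
          exact this
    calc _ ≤ ∑ _j : Fin M, α * (W / 2 ^ c) := sum_le_sum fun j _ => e2 j
      _ = μ * α * W := by
        simp only [sum_const, card_univ, Fintype.card_fin, nsmul_eq_mul, hμ]
        ring
  have h1 : μ * S.card ≤ μ * α * W + Real.sqrt μ * W := by linarith
  have hs : Real.sqrt μ * Real.sqrt μ = μ := Real.mul_self_sqrt hμ0.le
  have hs0 : 0 < Real.sqrt μ := Real.sqrt_pos.2 hμ0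
  have h2 : Real.sqrt (2 ^ c / M) = (Real.sqrt μ)⁻¹ := by
    rw [← Real.sqrt_inv, hμ, inv_div]
  rw [← hWe, h2]
  have h3 : μ * S.card ≤ μ * ((α + (Real.sqrt μ)⁻¹) * W) := by
    refine h1.trans (le_of_eq ?_)
    have : μ * (Real.sqrt μ)⁻¹ = Real.sqrt μ := by
      nth_rewrite 1 [← hs]
      rw [mul_assoc, mul_inv_cancel₀ hs0.ne', mul_one]
    calc μ * α * W + Real.sqrt μ * W = μ * α * W + (μ * (Real.sqrt μ)⁻¹) * W := by rw [this]
      _ = _ := by ring
  exact le_of_mul_le_mul_left h3 hμ0

/-- averaging -/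
lemma not_cover_of (n d : ℕ) (δ₁ δ : ℝ) (h1 : δ₁ < δ)
    (h : ∀ S : Finset (Finset (Fin d → Fin n)), δ₁ * (2 : ℝ) ^ (n ^ d) < S.card → Good S) :
    ¬ Cover n d δ := by
  classical
  rintro ⟨p, hp0, hpg, hp1, hp⟩
  have hcard : (Fintype.card (Finset (Fin d → Fin n)) : ℝ) = 2 ^ (n ^ d) := by
    rw [Fintype.card_finset]
    simp
  have hW : (0 : ℝ) < 2 ^ (n ^ d) := by positivity
  have e1 : δ * 2 ^ (n ^ d) ≤ ∑ A : Finset (Fin d → Fin n), ∑ F, if A ∈ F then p F else 0 := by
    calc δ * 2 ^ (n ^ d) = ∑ _A : Finset (Fin d → Fin n), δ := by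
          rw [sum_const, nsmul_eq_mul, card_univ, hcard, mul_comm]
      _ ≤ _ := sum_le_sum fun A _ => hp A
  have e2 : ∑ A : Finset (Fin d → Fin n), ∑ F : Finset (Finset (Fin d → Fin n)),
      (if A ∈ F then p F else 0) ≤ δ₁ * 2 ^ (n ^ d) := by
    rw [sum_comm]
    have e3 : ∀ F : Finset (Finset (Fin d → Fin n)),
        ∑ A, (if A ∈ F then p F else 0) ≤ p F * (δ₁ * 2 ^ (n ^ d)) := by
      intro F
      have e4 : ∑ A, (if A ∈ F then p F else 0) = p F * F.card := by
        rw [Finset.sum_ite_mem, univ_inter, sum_const, nsmul_eq_mul, mul_comm]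
      rw [e4]
      by_cases hF : Good F
      · rw [hpg F hF]; simp
      · refine mul_le_mul_of_nonneg_left ?_ (hp0 F)
        by_contra h5
        push Not at h5
        exact hF (h F h5)
    calc _ ≤ ∑ F : Finset (Finset (Fin d → Fin n)), p F * (δ₁ * 2 ^ (n ^ d)) :=
          sum_le_sum fun F _ => e3 F
      _ = _ := by rw [← sum_mul, hp1, one_mul]
  have e5 := e1.trans e2
  have e6 := le_of_mul_le_mul_right e5 hW
  linarith

/-- `icube d γ` is `γ^d` for a finite set `γ` of natural numbers. -/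
def icube (d : ℕ) (γ : Finset ℕ) : Finset (Fin d → ℕ) :=
  Fintype.piFinset (fun _ : Fin d => γ)

open MeasureTheory in
/-- `Recurrence d δ`: whenever `B A` are events in a probability space, indexed by the finite sets
`A` of `d`-tuples of natural numbers, each of probability at least `δ`, there are a finite `A` and a
nonempty finite `γ` with `A ∩ γ^d = ∅` such that `B A ∩ B (A ∪ γ^d)` has positive probability. -/
def Recurrence (d : ℕ) (δ : ℝ) : Prop :=
  ∀ (Ω : Type) [MeasurableSpace Ω] (P : Measure Ω) [IsProbabilityMeasure P]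
    (B : Finset (Fin d → ℕ) → Set Ω), (∀ A, MeasurableSet (B A)) → (∀ A, δ ≤ P.real (B A)) →
    ∃ A : Finset (Fin d → ℕ), ∃ γ : Finset ℕ, γ.Nonempty ∧ Disjoint A (icube d γ) ∧
      0 < P.real (B A ∩ B (A ∪ icube d γ))

/-- the copy in `ℕ^d` of a subset of `[n]^d` -/
def up {n d : ℕ} (A : Finset (Fin d → Fin n)) : Finset (Fin d → ℕ) :=
  A.image (fun x i => (x i : ℕ))

lemma emb_inj {n d : ℕ} : Function.Injective (fun (x : Fin d → Fin n) i => (x i : ℕ)) := by
  intro x y hxy
  funext i
  exact Fin.ext (congrFun hxy i)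

lemma up_inj {n d : ℕ} : Function.Injective (up (n := n) (d := d)) :=
  Finset.image_injective emb_inj

lemma up_union {n d : ℕ} (A B : Finset (Fin d → Fin n)) : up (A ∪ B) = up A ∪ up B :=
  image_union _ _

lemma disjoint_up {n d : ℕ} {A B : Finset (Fin d → Fin n)} : Disjoint (up A) (up B) ↔ Disjoint A B :=
  disjoint_image emb_inj

lemma mem_icube {d : ℕ} {γ : Finset ℕ} {x : Fin d → ℕ} : x ∈ icube d γ ↔ ∀ i, x i ∈ γ := by
  simp [icube, Fintype.mem_piFinset]

lemma mem_cube {n d : ℕ} {γ : Finset (Fin n)} {x : Fin d → Fin n} :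
    x ∈ cube d γ ↔ ∀ i, x i ∈ γ := by
  simp [cube, Fintype.mem_piFinset]

lemma up_cube {n d : ℕ} (γ : Finset (Fin n)) : up (cube d γ) = icube d (γ.image Fin.val) := by
  ext y
  rw [up, mem_image, mem_icube]
  constructor
  · rintro ⟨x, hx, rfl⟩ i
    exact mem_image_of_mem _ (mem_cube.1 hx i)
  · intro hy
    choose x hx hxy using fun i => mem_image.1 (hy i)
    exact ⟨x, mem_cube.2 hx, funext hxy⟩

open MeasureTheory in
lemma recurrence_of_not_cover (n d : ℕ) (δ : ℝ) (h : ¬ Cover n d δ) : Recurrence d δ := by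
  classical
  intro Ω _ P _ B hB hδ
  by_contra hcon
  push Not at hcon
  apply h
  let Φ : Ω → Finset (Finset (Fin d → Fin n)) := fun ω => univ.filter (fun A => ω ∈ B (up A))
  have hΦ0 : ∀ ω A, A ∈ Φ ω ↔ ω ∈ B (up A) := by
    intro ω A
    simp [Φ]
  have hΦ : ∀ F, MeasurableSet (Φ ⁻¹' {F}) := by
    intro F
    have : Φ ⁻¹' {F} = ⋂ A : Finset (Fin d → Fin n), (if A ∈ F then B (up A) else (B (up A))ᶜ) := by
      ext ω
      simp only [Set.mem_preimage, Set.mem_singleton_iff, Set.mem_iInter]
      constructor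
      · intro h A
        by_cases hA : A ∈ F
        · rw [if_pos hA]
          rw [← h, hΦ0] at hA
          exact hA
        · rw [if_neg hA]
          rw [← h, hΦ0] at hA
          exact hA
      · intro h
        ext A
        rw [hΦ0]
        have := h A
        by_cases hA : A ∈ F
        · rw [if_pos hA] at this
          exact ⟨fun _ => hA, fun _ => this⟩
        · rw [if_neg hA] at this
          exact ⟨fun h' => absurd h' this, fun h' => absurd h' hA⟩
    rw [this]
    refine MeasurableSet.iInter fun A => ?_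
    split_ifs
    · exact hB _
    · exact (hB _).compl
  refine ⟨fun F => P.real (Φ ⁻¹' {F}), fun F => measureReal_nonneg, ?_, ?_, ?_⟩
  · rintro F ⟨A, hA, γ, hγ, hdis, hA'⟩
    have h1 := hcon (up A) (γ.image Fin.val) (hγ.image _)
      (by rw [← up_cube]; exact disjoint_up.2 hdis)
    refine le_antisymm (le_trans (measureReal_mono ?_) h1) measureReal_nonneg
    intro ω hω
    rw [Set.mem_preimage, Set.mem_singleton_iff] at hω
    rw [← hω, hΦ0] at hA hA'
    rw [up_union, up_cube] at hA'
    exact ⟨hA, hA'⟩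
  · rw [sum_measureReal_preimage_singleton univ (fun y _ => hΦ y)]
    simp
  · intro A
    have e : ∑ F, (if A ∈ F then P.real (Φ ⁻¹' {F}) else 0) = P.real (B (up A)) := by
      rw [← sum_filter]
      rw [sum_measureReal_preimage_singleton _ (fun y _ => hΦ y)]
      congr 1
      ext ω
      simp [hΦ0]
    rw [e]
    exact hδ _

/-- the space of families of finite subsets of `ℕ^d` -/
abbrev Fam (d : ℕ) := Finset (Fin d → ℕ) → Bool

/-- extension by zero -/
noncomputable def ext (n d : ℕ) (F : Finset (Finset (Fin d → Fin n))) : Fam d :=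
  fun A => by classical exact decide (∃ A' ∈ F, up A' = A)

lemma ext_apply {n d : ℕ} {F : Finset (Finset (Fin d → Fin n))} {A : Finset (Fin d → ℕ)} :
    ext n d F A = true ↔ ∃ A' ∈ F, up A' = A := by
  simp [ext]

lemma good_of_ext {n d : ℕ} (hd : 1 ≤ d) {F : Finset (Finset (Fin d → Fin n))}
    {A : Finset (Fin d → ℕ)} {γ : Finset ℕ} (hγ : γ.Nonempty) (hdis : Disjoint A (icube d γ))
    (h1 : ext n d F A = true) (h2 : ext n d F (A ∪ icube d γ) = true) : Good F := by
  classical
  rw [ext_apply] at h1 h2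
  obtain ⟨A', hA', rfl⟩ := h1
  obtain ⟨A'', hA'', heq⟩ := h2
  have hγn : ∀ g ∈ γ, g < n := by
    intro g hg
    have h3 : (fun _ : Fin d => g) ∈ up A'' := by
      rw [heq, mem_union]
      right
      exact mem_icube.2 fun _ => hg
    rw [up, mem_image] at h3
    obtain ⟨x, -, hx⟩ := h3
    have h4 : (x ⟨0, hd⟩ : ℕ) = g := congrFun hx ⟨0, hd⟩
    rw [← h4]
    exact (x _).2
  have hγ' : (univ.filter (fun i : Fin n => (i : ℕ) ∈ γ)).image Fin.val = γ := by
    ext g
    rw [mem_image]
    constructor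
    · rintro ⟨i, hi, rfl⟩
      rw [mem_filter] at hi
      exact hi.2
    · intro hg
      exact ⟨⟨g, hγn g hg⟩, by rw [mem_filter]; exact ⟨mem_univ _, hg⟩, rfl⟩
  set γ' := univ.filter (fun i : Fin n => (i : ℕ) ∈ γ) with hγ'def
  refine ⟨A', hA', γ', ?_, ?_, ?_⟩
  · rw [← hγ', image_nonempty] at hγ
    exact hγ
  · rw [← hγ', ← up_cube, disjoint_up] at hdis
    exact hdis
  · rw [← hγ', ← up_cube, ← up_union] at heq
    rw [← up_inj heq]
    exact hA''

open MeasureTheory Filter Topology in
lemma not_recurrence_of_cover (d : ℕ) (hd : 1 ≤ d) (δ : ℝ) (h : ∀ n, Cover n d δ) :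
    ¬ Recurrence d δ := by
  classical
  intro hrec
  choose p hp0 hpg hp1 hp using h
  let ν : ℕ → Measure (Fam d) := fun n => ∑ F, ENNReal.ofReal (p n F) • Measure.dirac (ext n d F)
  have hνapp : ∀ n (D : Set (Fam d)), MeasurableSet D →
      ν n D = ENNReal.ofReal (∑ F, if ext n d F ∈ D then p n F else 0) := by
    intro n D hD
    rw [ENNReal.ofReal_sum_of_nonneg]
    · simp only [ν]
      rw [Measure.finsetSum_apply]
      refine sum_congr rfl fun F _ => ?_
      rw [Measure.smul_apply, Measure.dirac_apply' _ hD, smul_eq_mul]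
      by_cases hF : ext n d F ∈ D
      · simp [hF]
      · simp [hF]
    · intro F _
      split_ifs
      · exact hp0 n F
      · exact le_rfl
  have hνp : ∀ n, IsProbabilityMeasure (ν n) := by
    intro n
    constructor
    rw [hνapp n _ MeasurableSet.univ]
    simp [hp1]
  let νp : ℕ → ProbabilityMeasure (Fam d) := fun n => ⟨ν n, hνp n⟩
  let U : Ultrafilter (ProbabilityMeasure (Fam d)) := (hyperfilter ℕ).map νp
  obtain ⟨μ, -, hμ⟩ := (isCompact_univ : IsCompact (Set.univ : Set (ProbabilityMeasure (Fam d)))).ultrafilter_le_nhds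
    U (by simp)
  have hlim : Tendsto νp (hyperfilter ℕ : Filter ℕ) (𝓝 μ) := hμ
  have hclopen : ∀ A : Finset (Fin d → ℕ), IsClopen {x : Fam d | x A = true} := by
    intro A
    exact (isClopen_discrete {true}).preimage (continuous_apply A)
  have hmeas : ∀ A : Finset (Fin d → ℕ), MeasurableSet {x : Fam d | x A = true} := fun A =>
    (hclopen A).isOpen.measurableSet
  have hreal : ∀ n (D : Set (Fam d)), MeasurableSet D →
      (ν n).real D = ∑ F, if ext n d F ∈ D then p n F else 0 := by
    intro n D hD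
    rw [measureReal_def, hνapp n D hD, ENNReal.toReal_ofReal]
    refine sum_nonneg fun F _ => ?_
    split_ifs
    · exact hp0 n F
    · exact le_rfl
  have hlimR : ∀ D : Set (Fam d), IsClopen D →
      Tendsto (fun n => (ν n).real D) (hyperfilter ℕ : Filter ℕ)
        (𝓝 ((μ : Measure (Fam d)).real D)) := by
    intro D hD
    exact NNReal.tendsto_coe.2 (ProbabilityMeasure.tendsto_measure_of_isClopen_of_tendsto hlim hD)
  have hdense : ∀ A : Finset (Fin d → ℕ), δ ≤ (μ : Measure (Fam d)).real {x | x A = true} := by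
    intro A
    refine ge_of_tendsto (hlimR _ (hclopen A)) ?_
    have hev : ∀ᶠ n in (hyperfilter ℕ : Filter ℕ), (A.sup fun x => univ.sup x) + 1 ≤ n :=
      Nat.hyperfilter_le_atTop (eventually_ge_atTop _)
    filter_upwards [hev] with n hn
    have hA : up (univ.filter (fun x : Fin d → Fin n => (fun i => (x i : ℕ)) ∈ A)) = A := by
      ext y
      rw [up, mem_image]
      constructor
      · rintro ⟨x, hx, rfl⟩
        rw [mem_filter] at hx
        exact hx.2
      · intro hy
        have hlt : ∀ i, y i < n := by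
          intro i
          have h1 : y i ≤ univ.sup y := le_sup (mem_univ i)
          have h2 : univ.sup y ≤ A.sup fun x => univ.sup x := le_sup (f := fun x => univ.sup x) hy
          omega
        exact ⟨fun i => ⟨y i, hlt i⟩, by rw [mem_filter]; exact ⟨mem_univ _, hy⟩, rfl⟩
    rw [hreal n _ (hmeas A)]
    refine (hp n (univ.filter (fun x : Fin d → Fin n => (fun i => (x i : ℕ)) ∈ A))).trans
      (le_of_eq ?_)
    refine sum_congr rfl fun F _ => ?_
    have hiff : ext n d F ∈ {x : Fam d | x A = true} ↔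
        (univ.filter (fun x : Fin d → Fin n => (fun i => (x i : ℕ)) ∈ A)) ∈ F := by
      rw [Set.mem_ofPred_eq, ext_apply]
      constructor
      · rintro ⟨A', hA', h1⟩
        rw [← hA] at h1
        rw [← up_inj h1]
        exact hA'
      · intro h1
        exact ⟨_, h1, hA⟩
    by_cases h1 : (univ.filter (fun x : Fin d → Fin n => (fun i => (x i : ℕ)) ∈ A)) ∈ F
    · rw [if_pos h1, if_pos (hiff.2 h1)]
    · rw [if_neg h1, if_neg (fun h2 => h1 (hiff.1 h2))]
  obtain ⟨A, γ, hγ, hdis, hpos⟩ := hrec (Fam d) (μ : Measure (Fam d)) (fun A => {x | x A = true})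
    hmeas hdense
  have h1 := hlimR _ ((hclopen A).inter (hclopen (A ∪ icube d γ)))
  have h2 : ∀ n, (ν n).real ({x : Fam d | x A = true} ∩ {x | x (A ∪ icube d γ) = true}) = 0 := by
    intro n
    rw [hreal n _ ((hmeas A).inter (hmeas _))]
    refine sum_eq_zero fun F _ => ?_
    split_ifs with hF
    · exact hpg n F (good_of_ext hd hγ hdis hF.1 hF.2)
    · rfl
  simp only [h2] at h1
  have h3 := tendsto_nhds_unique h1 tendsto_const_nhds
  exact hpos.ne' h3

open MeasureTheory in
/-- `Stationary P B`: for every injection `T : [n] → ℕ` and every finite `R ⊆ ℕ^d` disjoint from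
`T([n])^d` the events `B (T(A') ∪ R)`, `A' ⊆ [n]^d`, have the same joint law as the events `B A'`,
`A' ⊆ [n]^d` (here `[n]` is `{0, ..., n - 1}`). -/
def Stationary {d : ℕ} {Ω : Type} [MeasurableSpace Ω] (P : Measure Ω)
    (B : Finset (Fin d → ℕ) → Set Ω) : Prop :=
  ∀ (n : ℕ) (T : Fin n → ℕ), Function.Injective T →
    ∀ R : Finset (Fin d → ℕ), (∀ x ∈ R, ∃ i, ∀ k, T k ≠ x i) →
      ∀ F : Finset (Finset (Fin d → Fin n)),
        P.real {ω | ∀ A', A' ∈ F ↔ ω ∈ B (A'.image (fun x i => T (x i)) ∪ R)} =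
        P.real {ω | ∀ A', A' ∈ F ↔ ω ∈ B (A'.image (fun x i => (x i : ℕ)))}

open MeasureTheory in
/-- `StatRecurrence d δ`: for every stationary system of events with `P (B ∅) ≥ δ` there is `k ≥ 1`
for which `B ∅ ∩ B ([k]^d)` has positive probability. -/
def StatRecurrence (d : ℕ) (δ : ℝ) : Prop :=
  ∀ (Ω : Type) [MeasurableSpace Ω] (P : Measure Ω) [IsProbabilityMeasure P]
    (B : Finset (Fin d → ℕ) → Set Ω), (∀ A, MeasurableSet (B A)) → Stationary P B →
    δ ≤ P.real (B ∅) → ∃ k : ℕ, 1 ≤ k ∧ 0 < P.real (B ∅ ∩ B (icube d (range k)))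

open MeasureTheory Filter Topology in
lemma exists_limit (d : ℕ) (W : ℕ → Type) [∀ m, Fintype (W m)] [∀ m, Nonempty (W m)]
    (X : ∀ m, W m → Fam d) : ∃ μ : ProbabilityMeasure (Fam d), ∀ D : Set (Fam d), IsClopen D →
      Tendsto (fun m => ((Set.ncard {p | X m p ∈ D} : ℕ) : ℝ) / Fintype.card (W m))
        (hyperfilter ℕ : Filter ℕ) (𝓝 ((μ : Measure (Fam d)).real D)) := by
  classical
  let ν : ℕ → Measure (Fam d) := fun m =>
    ∑ p, ENNReal.ofReal (1 / (Fintype.card (W m) : ℝ)) • Measure.dirac (X m p)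
  have hcard : ∀ m, (0 : ℝ) < Fintype.card (W m) := by
    intro m
    exact_mod_cast Fintype.card_pos
  have hνapp : ∀ m (D : Set (Fam d)), MeasurableSet D →
      ν m D = ENNReal.ofReal (∑ p, if X m p ∈ D then 1 / (Fintype.card (W m) : ℝ) else 0) := by
    intro m D hD
    have := hcard m
    rw [ENNReal.ofReal_sum_of_nonneg]
    · simp only [ν]
      rw [Measure.finsetSum_apply]
      refine sum_congr rfl fun p _ => ?_
      rw [Measure.smul_apply, Measure.dirac_apply' _ hD, smul_eq_mul]
      by_cases hF : X m p ∈ D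
      · simp [hF]
      · simp [hF]
    · intro p _
      split_ifs
      · positivity
      · exact le_rfl
  have hνp : ∀ m, IsProbabilityMeasure (ν m) := by
    intro m
    have := hcard m
    constructor
    rw [hνapp m _ MeasurableSet.univ]
    simp
  let νp : ℕ → ProbabilityMeasure (Fam d) := fun m => ⟨ν m, hνp m⟩
  let U : Ultrafilter (ProbabilityMeasure (Fam d)) := (hyperfilter ℕ).map νp
  obtain ⟨μ, -, hμ⟩ := (isCompact_univ :
    IsCompact (Set.univ : Set (ProbabilityMeasure (Fam d)))).ultrafilter_le_nhds U (by simp)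
  have hlim : Tendsto νp (hyperfilter ℕ : Filter ℕ) (𝓝 μ) := hμ
  refine ⟨μ, fun D hD => ?_⟩
  have h1 : Tendsto (fun m => (ν m).real D) (hyperfilter ℕ : Filter ℕ)
        (𝓝 ((μ : Measure (Fam d)).real D)) :=
    NNReal.tendsto_coe.2 (ProbabilityMeasure.tendsto_measure_of_isClopen_of_tendsto hlim hD)
  refine h1.congr fun m => ?_
  have := hcard m
  rw [measureReal_def, hνapp m D hD.isOpen.measurableSet, ENNReal.toReal_ofReal]
  · have h2 : {p | X m p ∈ D} = ↑(univ.filter (fun p => X m p ∈ D)) := by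
      ext p
      simp
    rw [h2, Set.ncard_coe_finset, Finset.card_filter]
    push_cast
    rw [sum_div]
    refine sum_congr rfl fun p _ => ?_
    by_cases h : X m p ∈ D <;> simp [h]
  · refine sum_nonneg fun p _ => ?_
    split_ifs
    · positivity
    · exact le_rfl

open MeasureTheory in
lemma statRecurrence_of_recurrence (d : ℕ) (hd : 1 ≤ d) (δ : ℝ) (h : Recurrence d δ) :
    StatRecurrence d δ := by
  classical
  intro Ω _ P _ B hB hst hδ
  have hconst : ∀ A, P.real (B A) = P.real (B ∅) := by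
    intro A
    have h1 := hst 0 Fin.elim0 (fun a => a.elim0) A (fun x _ => ⟨⟨0, hd⟩, fun k => k.elim0⟩)
      {∅}
    have : IsEmpty (Fin d → Fin 0) := ⟨fun f => (f ⟨0, hd⟩).elim0⟩
    have hA' : ∀ A' : Finset (Fin d → Fin 0), A' = ∅ := fun A' =>
      Finset.eq_empty_of_isEmpty A'
    have e1 : {ω | ∀ A' : Finset (Fin d → Fin 0), A' ∈ ({∅} : Finset (Finset (Fin d → Fin 0))) ↔
        ω ∈ B (A'.image (fun x i => (Fin.elim0 (x i) : ℕ)) ∪ A)} = B A := by
      ext ω
      constructor
      · intro h2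
        have := (h2 ∅).1 (mem_singleton_self _)
        simpa using this
      · intro h2 A'
        rw [hA' A']
        simp [h2]
    have e2 : {ω | ∀ A' : Finset (Fin d → Fin 0), A' ∈ ({∅} : Finset (Finset (Fin d → Fin 0))) ↔
        ω ∈ B (A'.image (fun x i => (x i : ℕ)))} = B ∅ := by
      ext ω
      constructor
      · intro h2
        have := (h2 ∅).1 (mem_singleton_self _)
        simpa using this
      · intro h2 A'
        rw [hA' A']
        simp [h2]
    rw [e1, e2] at h1
    exact h1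
  obtain ⟨A, γ, hγ, hdis, hpos⟩ := h Ω P B hB (fun A => by rw [hconst]; exact hδ)
  refine ⟨γ.card, hγ.card_pos, ?_⟩
  let T : Fin γ.card → ℕ := fun i => γ.orderEmbOfFin rfl i
  have hT : Function.Injective T := fun i j hij => (γ.orderEmbOfFin rfl).injective hij
  have hTγ : ∀ g, g ∈ γ ↔ ∃ i, T i = g := by
    intro g
    have := Finset.range_orderEmbOfFin γ rfl
    rw [← mem_coe, ← this]
    rfl
  have hR : ∀ x ∈ A, ∃ i, ∀ k, T k ≠ x i := by
    intro x hx
    have h1 : x ∉ icube d γ := fun h => (Finset.disjoint_left.1 hdis) hx h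
    rw [mem_icube] at h1
    push Not at h1
    obtain ⟨i, hi⟩ := h1
    exact ⟨i, fun k hk => hi ((hTγ _).2 ⟨k, hk⟩)⟩
  -- sum over patterns
  let PP : Finset (Finset (Finset (Fin d → Fin γ.card))) :=
    univ.filter (fun F => ∅ ∈ F ∧ univ ∈ F)
  have key : ∀ E : Finset (Fin d → Fin γ.card) → Set Ω, (∀ A', MeasurableSet (E A')) →
      P.real (E ∅ ∩ E univ) = ∑ F ∈ PP, P.real {ω | ∀ A', A' ∈ F ↔ ω ∈ E A'} := by
    intro E hE
    let Φ : Ω → Finset (Finset (Fin d → Fin γ.card)) := fun ω => univ.filter (fun A' => ω ∈ E A')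
    have hΦ0 : ∀ ω A', A' ∈ Φ ω ↔ ω ∈ E A' := by
      intro ω A'
      simp [Φ]
    have hpre : ∀ F, Φ ⁻¹' {F} = {ω | ∀ A', A' ∈ F ↔ ω ∈ E A'} := by
      intro F
      ext ω
      rw [Set.mem_preimage, Set.mem_singleton_iff]
      constructor
      · intro h1 A'
        rw [← h1, hΦ0]
      · intro h1
        ext A'
        rw [hΦ0]
        exact (h1 A').symm
    have hmeas : ∀ F, MeasurableSet (Φ ⁻¹' {F}) := by
      intro F
      have : Φ ⁻¹' {F} = ⋂ A', (if A' ∈ F then E A' else (E A')ᶜ) := by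
        rw [hpre]
        ext ω
        rw [Set.mem_iInter]
        refine forall_congr' fun A' => ?_
        by_cases hA' : A' ∈ F
        · simp [hA']
        · simp [hA']
      rw [this]
      refine MeasurableSet.iInter fun A' => ?_
      split_ifs
      · exact hE _
      · exact (hE _).compl
    have h1 := sum_measureReal_preimage_singleton (μ := P) PP (fun y _ => hmeas y)
    rw [sum_congr rfl fun F _ => by rw [← hpre F], h1]
    congr 1
    ext ω
    simp only [PP, Set.mem_preimage, mem_coe, mem_filter, mem_univ, true_and, hΦ0]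
    exact Iff.rfl
  have h1 := key (fun A' => B (A'.image (fun x i => T (x i)) ∪ A)) (fun A' => hB _)
  have h2 := key (fun A' => B (A'.image (fun x i => (x i : ℕ)))) (fun A' => hB _)
  have h3 : P.real (B (((∅ : Finset (Fin d → Fin γ.card))).image (fun x i => T (x i)) ∪ A) ∩
      B (((univ : Finset (Fin d → Fin γ.card))).image (fun x i => T (x i)) ∪ A))
      = P.real (B A ∩ B (A ∪ icube d γ)) := by
    have e1 : ((∅ : Finset (Fin d → Fin γ.card))).image (fun x i => T (x i)) ∪ A = A := by simp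
    have e2 : ((univ : Finset (Fin d → Fin γ.card))).image (fun x i => T (x i)) ∪ A
        = A ∪ icube d γ := by
      rw [union_comm]
      congr 1
      ext y
      rw [mem_image, mem_icube]
      constructor
      · rintro ⟨x, -, rfl⟩ i
        exact (hTγ _).2 ⟨_, rfl⟩
      · intro hy
        choose x hx using fun i => (hTγ _).1 (hy i)
        exact ⟨x, mem_univ _, funext hx⟩
    rw [e1, e2]
  have h4 : P.real (B (((∅ : Finset (Fin d → Fin γ.card))).image (fun x i => (x i : ℕ))) ∩
      B (((univ : Finset (Fin d → Fin γ.card))).image (fun x i => (x i : ℕ))))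
      = P.real (B ∅ ∩ B (icube d (range γ.card))) := by
    have e1 : ((∅ : Finset (Fin d → Fin γ.card))).image (fun x i => (x i : ℕ)) = ∅ := by simp
    have e2 : ((univ : Finset (Fin d → Fin γ.card))).image (fun x i => (x i : ℕ))
        = icube d (range γ.card) := by
      ext y
      rw [mem_image, mem_icube]
      constructor
      · rintro ⟨x, -, rfl⟩ i
        exact mem_range.2 (x i).2
      · intro hy
        exact ⟨fun i => ⟨y i, mem_range.1 (hy i)⟩, mem_univ _, rfl⟩
    rw [e1, e2]
  rw [h3] at h1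
  rw [h4] at h2
  rw [h2, ← sum_congr rfl fun F _ => hst γ.card T hT A hR F, ← h1]
  exact hpos

lemma clopen_pat {d n : ℕ} (G : Finset (Fin d → Fin n) → Finset (Fin d → ℕ))
    (F : Finset (Finset (Fin d → Fin n))) :
    IsClopen {x : Fam d | ∀ A', A' ∈ F ↔ x ∈ {y : Fam d | y (G A') = true}} := by
  classical
  have h1 : {x : Fam d | ∀ A', A' ∈ F ↔ x ∈ {y : Fam d | y (G A') = true}}
      = ⋂ A', (if A' ∈ F then {y : Fam d | y (G A') = true} else {y : Fam d | y (G A') = true}ᶜ) := by
    ext x
    rw [Set.mem_iInter]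
    refine forall_congr' fun A' => ?_
    by_cases hA' : A' ∈ F
    · simp [hA']
    · simp [hA']
  rw [h1]
  have h2 : ∀ A : Finset (Fin d → ℕ), IsClopen {x : Fam d | x A = true} := fun A =>
    (isClopen_discrete {true}).preimage (continuous_apply A)
  refine isClopen_iInter_of_finite fun A' => ?_
  split_ifs
  · exact h2 _
  · exact (h2 _).compl

open MeasureTheory Filter Topology in
lemma not_statRecurrence (d : ℕ) (hd : 1 ≤ d) (δ : ℝ)
    (h : ∀ N : ℕ, ∃ S : Finset (Finset (Fin d → Fin N)),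
      δ * (2 : ℝ) ^ (N ^ d) < S.card ∧ ¬ Good S) : ¬ StatRecurrence d δ := by
  classical
  intro hrec
  choose S hSδ hSg using h
  let M : ℕ → ℕ := fun m => 2 ^ ((m + 1) ^ d) * (m + 1) ^ 2
  have hMpos : ∀ m, 0 < M m := fun m => by positivity
  let N : ℕ → ℕ := fun m => (m + 1) + M m * (m + 1)
  have hNe : ∀ m, NeZero (N m) := fun m => ⟨by simp only [N]; omega⟩
  let X : ∀ m, Equiv.Perm (Fin (N m)) × Finset (Fin d → Fin (N m)) → Fam d := fun m p B =>
    decide (B ⊆ ic d (m + 1) ∧
      (p.2 \ im (sp p.1) (ic d (m + 1))) ∪ im (sp p.1) B ∈ S (N m))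
  have hX : ∀ m p B, B ⊆ ic d (m + 1) → (X m p B = true ↔
      (p.2 \ im (sp p.1) (ic d (m + 1))) ∪ im (sp p.1) B ∈ S (N m)) := by
    intro m p B hB
    simp only [X, decide_eq_true_eq]
    exact ⟨fun h => h.2, fun h => ⟨hB, h⟩⟩
  have hX' : ∀ m p B, X m p B = true → B ⊆ ic d (m + 1) := by
    intro m p B hB
    simp only [X, decide_eq_true_eq] at hB
    exact hB.1
  obtain ⟨μ, hμ⟩ := exists_limit d
    (fun m => Equiv.Perm (Fin (N m)) × Finset (Fin d → Fin (N m))) X
  let Bf : Finset (Fin d → ℕ) → Set (Fam d) := fun A => {x : Fam d | x A = true}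
  have hclopen : ∀ A : Finset (Fin d → ℕ), IsClopen (Bf A) := fun A =>
    (isClopen_discrete {true}).preimage (continuous_apply A)
  let r : Set (Fam d) → ℕ → ℝ := fun D m => ((Set.ncard {p | X m p ∈ D} : ℕ) : ℝ) /
    Fintype.card (Equiv.Perm (Fin (N m)) × Finset (Fin d → Fin (N m)))
  have hr : ∀ D : Set (Fam d), IsClopen D →
      Tendsto (r D) (hyperfilter ℕ : Filter ℕ) (𝓝 ((μ : Measure (Fam d)).real D)) :=
    fun D hD => hμ D hD
  have hcard : ∀ m, (0 : ℝ) <
      Fintype.card (Equiv.Perm (Fin (N m)) × Finset (Fin d → Fin (N m))) := by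
    intro m
    exact_mod_cast Fintype.card_pos
  let e0 : ∀ n₀ : ℕ, Finset (Finset (Fin d → Fin n₀)) → ℕ → ℝ := fun n₀ F m =>
    ((univ.filter (fun p : Equiv.Perm (Fin (N m)) × Finset (Fin d → Fin (N m)) =>
        ∀ A' : Finset (Fin d → Fin n₀), A' ∈ F ↔
          (p.2 \ im (sp p.1) (ic d n₀)) ∪ im (sp p.1) (im Fin.val A') ∈ S (N m))).card : ℝ) /
    Fintype.card (Equiv.Perm (Fin (N m)) × Finset (Fin d → Fin (N m)))
  have hkey : ∀ (n₀ : ℕ) (T : Fin n₀ → ℕ), Function.Injective T →
      ∀ R : Finset (Fin d → ℕ), (∀ x ∈ R, ∃ i, ∀ k, T k ≠ x i) →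
      ∀ F : Finset (Finset (Fin d → Fin n₀)), ∀ᶠ m in (hyperfilter ℕ : Filter ℕ),
        |r {x : Fam d | ∀ A', A' ∈ F ↔ x ∈ Bf (im T A' ∪ R)} m - e0 n₀ F m| ≤ 1 / ((m : ℝ) + 1) := by
    intro n₀ T hT R hR F
    have hev : ∀ᶠ m in (hyperfilter ℕ : Filter ℕ),
        (R.sup fun x => univ.sup x) + (univ.sup T) + n₀ + 1 ≤ m :=
      Nat.hyperfilter_le_atTop (eventually_ge_atTop _)
    filter_upwards [hev] with m hm
    have hTm : ∀ i, T i < m + 1 := by
      intro i
      have h1 : T i ≤ univ.sup T := le_sup (mem_univ i)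
      omega
    have hRm : R ⊆ ic d (m + 1) := by
      intro y hy
      rw [mem_ic]
      intro i
      have h1 : y i ≤ univ.sup y := le_sup (mem_univ i)
      have h2 : univ.sup y ≤ R.sup fun x => univ.sup x := le_sup (f := fun x => univ.sup x) hy
      omega
    have hst := stage hd (S (N m)) n₀ (m + 1) (M m) (hMpos m)
      (by simp only [N]; omega) (by simp only [N]; omega) T hT hTm R hRm hR F
    have hsq : Real.sqrt (2 ^ ((m + 1) ^ d) / (M m : ℝ)) = 1 / ((m : ℝ) + 1) := by
      simp only [M]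
      push_cast
      rw [show (2 : ℝ) ^ ((m + 1) ^ d) / (2 ^ ((m + 1) ^ d) * ((m : ℝ) + 1) ^ 2)
        = (1 / ((m : ℝ) + 1)) ^ 2 by field_simp]
      exact Real.sqrt_sq (by positivity)
    rw [hsq] at hst
    have hEv : r {x : Fam d | ∀ A', A' ∈ F ↔ x ∈ Bf (im T A' ∪ R)} m
        = ((univ.filter (fun p : Equiv.Perm (Fin (N m)) × Finset (Fin d → Fin (N m)) =>
        ∀ A' : Finset (Fin d → Fin n₀), A' ∈ F ↔
          (p.2 \ im (sp p.1) (ic d (m + 1))) ∪ im (sp p.1) (im T A' ∪ R) ∈ S (N m))).card : ℝ) /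
          Fintype.card (Equiv.Perm (Fin (N m)) × Finset (Fin d → Fin (N m))) := by
      simp only [r]
      refine congrArg (fun t : ℕ => (t : ℝ) / _) ?_
      rw [← Set.ncard_coe_finset]
      refine congrArg Set.ncard (Set.ext fun p => ?_)
      rw [mem_coe, mem_filter]
      refine Iff.trans ?_ (and_iff_right (mem_univ p)).symm
      refine forall_congr' fun A' => ?_
      refine iff_congr Iff.rfl ?_
      refine hX m p _ ?_
      intro x hx
      rw [mem_union] at hx
      rcases hx with hx | hx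
      · rw [mem_im] at hx
        obtain ⟨y, -, rfl⟩ := hx
        exact mem_ic.2 fun i => hTm _
      · exact hRm hx
    rw [hEv]
    simp only [e0]
    rw [← sub_div, abs_div, abs_of_pos (hcard m), div_le_iff₀ (hcard m)]
    exact hst
  have hone : Tendsto (fun m : ℕ => 1 / ((m : ℝ) + 1)) (hyperfilter ℕ : Filter ℕ) (𝓝 0) :=
    tendsto_one_div_add_atTop_nhds_zero_nat.mono_left Nat.hyperfilter_le_atTop
  -- stationarity
  have hstat : Stationary (μ : Measure (Fam d)) Bf := by
    intro n₀ T hT R hR F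
    have h1 := hkey n₀ T hT R hR F
    have h2 := hkey n₀ Fin.val Fin.val_injective ∅ (fun x hx => absurd hx (notMem_empty x)) F
    have l1 := hr _ (clopen_pat (fun A' => im T A' ∪ R) F)
    have l2 := hr _ (clopen_pat (fun A' => im Fin.val A' ∪ ∅) F)
    have l3 := (l1.sub l2)
    have l4 : Tendsto (fun m => r {x : Fam d | ∀ A', A' ∈ F ↔ x ∈ Bf (im T A' ∪ R)} m
        - r {x : Fam d | ∀ A', A' ∈ F ↔ x ∈ Bf (im Fin.val A' ∪ ∅)} m)
        (hyperfilter ℕ : Filter ℕ) (𝓝 0) := by
      have h5 : Tendsto (fun m : ℕ => 2 * (1 / ((m : ℝ) + 1))) (hyperfilter ℕ : Filter ℕ)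
          (𝓝 0) := by simpa using hone.const_mul 2
      refine squeeze_zero_norm' ?_ h5
      filter_upwards [h1, h2] with m h3 h4
      rw [Real.norm_eq_abs]
      rw [abs_le] at h3 h4 ⊢
      constructor <;> linarith [h3.1, h3.2, h4.1, h4.2]
    have l5 := tendsto_nhds_unique l3 l4
    have l6 := sub_eq_zero.1 l5
    simp only [union_empty] at l6
    exact l6
  -- density
  have hdens : δ ≤ (μ : Measure (Fam d)).real (Bf ∅) := by
    have hE : IsEmpty (Fin d → Fin 0) := ⟨fun f => (f ⟨0, hd⟩).elim0⟩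
    have hA' : ∀ A' : Finset (Fin d → Fin 0), A' = ∅ := fun A' =>
      Finset.eq_empty_of_isEmpty A'
    have h1 := hkey 0 Fin.elim0 (fun a => a.elim0) ∅ (fun x hx => absurd hx (notMem_empty x)) {∅}
    have e1 : {x : Fam d | ∀ A', A' ∈ ({∅} : Finset (Finset (Fin d → Fin 0))) ↔
        x ∈ Bf (im Fin.elim0 A' ∪ ∅)} = Bf ∅ := by
      ext x
      constructor
      · intro h2
        have := (h2 ∅).1 (mem_singleton_self _)
        simpa [im] using this
      · intro h2 A'
        rw [hA' A']
        simpa [im] using h2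
    rw [e1] at h1
    have e2 : ∀ m, δ ≤ e0 0 {∅} m := by
      intro m
      have e3 : (univ.filter (fun p : Equiv.Perm (Fin (N m)) × Finset (Fin d → Fin (N m)) =>
        ∀ A' : Finset (Fin d → Fin 0), A' ∈ ({∅} : Finset (Finset (Fin d → Fin 0))) ↔
          (p.2 \ im (sp p.1) (ic d 0)) ∪ im (sp p.1) (im Fin.val A') ∈ S (N m)))
          = univ ×ˢ S (N m) := by
        have hic : ic d 0 = ∅ := by
          rw [eq_empty_iff_forall_notMem]
          intro x hx
          exact absurd (mem_ic.1 hx ⟨0, hd⟩) (by omega)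
        ext p
        rw [mem_filter, mem_product]
        constructor
        · rintro ⟨-, h2⟩
          have := (h2 ∅).1 (mem_singleton_self _)
          rw [hic] at this
          refine ⟨mem_univ _, ?_⟩
          simpa [im] using this
        · rintro ⟨-, h2⟩
          refine ⟨mem_univ _, fun A' => ?_⟩
          rw [hA' A', hic]
          simpa [im] using h2
      simp only [e0]
      rw [e3, card_product, le_div_iff₀ (hcard m), Fintype.card_prod, Fintype.card_finset]
      have h4 := (hSδ (N m)).le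
      have h5 : (0 : ℝ) ≤ Fintype.card (Equiv.Perm (Fin (N m))) := Nat.cast_nonneg _
      have h6 := mul_le_mul_of_nonneg_left h4 h5
      push_cast
      simp only [Fintype.card_fun, Fintype.card_fin, card_univ]
      push_cast
      calc _ = (Fintype.card (Equiv.Perm (Fin (N m))) : ℝ) * (δ * 2 ^ ((N m) ^ d)) := by ring
        _ ≤ _ := h6
    have h7 : ∀ᶠ m in (hyperfilter ℕ : Filter ℕ), δ ≤ r (Bf ∅) m + 1 / ((m : ℝ) + 1) := by
      filter_upwards [h1] with m h8
      have h9 := e2 m
      have h10 := (abs_le.1 h8).1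
      linarith
    have h11 := (hr _ (hclopen ∅)).add hone
    rw [add_zero] at h11
    exact ge_of_tendsto h11 h7
  obtain ⟨k, hk, hpos⟩ := hrec (Fam d) (μ : Measure (Fam d)) Bf
    (fun A => (hclopen A).isOpen.measurableSet) hstat hdens
  have h1 := hr _ ((hclopen ∅).inter (hclopen (icube d (range k))))
  have h2 : ∀ m, r (Bf ∅ ∩ Bf (icube d (range k))) m = 0 := by
    intro m
    simp only [r]
    rw [div_eq_zero_iff]
    left
    rw [Nat.cast_eq_zero, Set.ncard_eq_zero, Set.eq_empty_iff_forall_notMem]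
    · rintro p ⟨h4, h5⟩
      have h6 : icube d (range k) ⊆ ic d (m + 1) := hX' m p _ h5
      have hkm : k ≤ m + 1 := by
        have h7 : (fun _ : Fin d => k - 1) ∈ icube d (range k) :=
          mem_icube.2 fun _ => mem_range.2 (by omega)
        have h8 := mem_ic.1 (h6 h7) ⟨0, hd⟩
        omega
      have h9 := (hX m p _ (empty_subset _)).1 h4
      have h10 := (hX m p _ h6).1 h5
      have h11 : im (sp p.1) (icube d (range k)) = cube d ((range k).image (sp p.1)) := by
        ext y
        rw [mem_im, mem_cube]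
        constructor
        · rintro ⟨x, hx, rfl⟩ i
          exact mem_image_of_mem _ (mem_icube.1 hx i)
        · intro hy
          choose x hx hxy using fun i => mem_image.1 (hy i)
          exact ⟨x, mem_icube.2 hx, funext hxy⟩
      refine hSg (N m) ⟨_, h9, (range k).image (sp p.1), ?_, ?_, ?_⟩
      · rw [image_nonempty]
        exact ⟨0, mem_range.2 (by omega)⟩
      · rw [← h11]
        have h12 : im (sp p.1) (∅ : Finset (Fin d → ℕ)) = ∅ := by simp [im]
        rw [h12, union_empty]
        refine Finset.disjoint_of_subset_right (image_subset_image h6) ?_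
        exact sdiff_disjoint
      · rw [← h11]
        have h12 : im (sp p.1) (∅ : Finset (Fin d → ℕ)) = ∅ := by simp [im]
        rw [h12, union_empty]
        exact h10
  have h3 : r (Bf ∅ ∩ Bf (icube d (range k))) = fun _ => 0 := funext h2
  rw [h3] at h1
  exact hpos.ne' (tendsto_nhds_unique h1 tendsto_const_nhds)

/-- For every `d ≥ 1` and every threshold `θ` the following are equivalent: (1) for every `δ > θ` all
families of density more than `δ` are good, for all large `N`; (2) the same for at least one `N`;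
(3) for every `δ > θ` there is `n` such that no probability distribution on the families of subsets of
`[n]^d` that are not good covers every `A` with probability at least `δ`; (4) for every `δ > θ` there
are `n` and a probability weight on the subsets of `[n]^d` for which every family that is not good has
weight less than `δ`; (5) for every `δ > θ` events `B A` of probability at least `δ` in a probability
space, indexed by the finite `A ⊆ ℕ^d`, always have `A` and `γ ≠ ∅` with `A ∩ γ^d = ∅` such that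
`B A ∩ B (A ∪ γ^d)` has positive probability; (6) for every `δ > θ` and every stationary system of
events with `P (B ∅) ≥ δ` there is `k ≥ 1` such that `B ∅ ∩ B ([k]^d)` has positive probability. -/
theorem result : ∀ d : ℕ, 1 ≤ d → ∀ θ : ℝ, List.TFAE [
    ∀ δ : ℝ, θ < δ → ∃ N₀ : ℕ, ∀ N : ℕ, N₀ ≤ N → ∀ S : Finset (Finset (Fin d → Fin N)),
      δ * (2 : ℝ) ^ (N ^ d) < S.card → Good S,
    ∀ δ : ℝ, θ < δ → ∃ N : ℕ, ∀ S : Finset (Finset (Fin d → Fin N)),
      δ * (2 : ℝ) ^ (N ^ d) < S.card → Good S,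
    ∀ δ : ℝ, θ < δ → ∃ n : ℕ, ¬ Cover n d δ,
    ∀ δ : ℝ, θ < δ → ∃ n : ℕ, Weight n d δ,
    ∀ δ : ℝ, θ < δ → Recurrence d δ,
    ∀ δ : ℝ, θ < δ → StatRecurrence d δ] := by
  intro d hd θ
  tfae_have 1 → 2 := by
    intro h δ hδ
    obtain ⟨N₀, hN₀⟩ := h δ hδ
    exact ⟨N₀, hN₀ N₀ le_rfl⟩
  tfae_have 2 → 3 := by
    intro h δ hδ
    obtain ⟨N, hN⟩ := h ((θ + δ) / 2) (by linarith)
    exact ⟨N, not_cover_of N d ((θ + δ) / 2) δ (by linarith) hN⟩
  tfae_have 3 → 4 := by
    intro h δ hδ
    obtain ⟨n, hn⟩ := h δ hδ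
    exact ⟨n, weight_of_not_cover n d δ hn⟩
  tfae_have 4 → 1 := by
    intro h δ hδ
    obtain ⟨n, w, hw0, hw1, hw⟩ := h ((θ + δ) / 2) (by linarith)
    have hκ : 0 < (δ - θ) / 2 := by linarith
    obtain ⟨M, hM⟩ := exists_nat_gt ((2 : ℝ) ^ (n ^ d) / ((δ - θ) / 2) ^ 2)
    have hM0 : (0 : ℝ) < M := lt_of_le_of_lt (by positivity) hM
    refine ⟨M * n, fun N hN S hS => ?_⟩
    by_contra hgood
    have h1 := transfer n d hd ((θ + δ) / 2) w hw0 hw1 (fun F hF => (hw F hF).le) M N
      (by exact_mod_cast hM0) hN S hgood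
    have h2 : Real.sqrt (2 ^ (n ^ d) / M) < (δ - θ) / 2 := by
      rw [Real.sqrt_lt' hκ, div_lt_iff₀ hM0]
      rw [div_lt_iff₀ (by positivity)] at hM
      linarith
    have hW : (0 : ℝ) < 2 ^ (N ^ d) := by positivity
    have h3 := lt_of_lt_of_le hS h1
    have h4 := lt_of_mul_lt_mul_right h3 hW.le
    linarith
  tfae_have 3 → 5 := by
    intro h δ hδ
    obtain ⟨n, hn⟩ := h δ hδ
    exact recurrence_of_not_cover n d δ hn
  tfae_have 5 → 3 := by
    intro h δ hδ
    by_contra hcon
    push Not at hcon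
    exact not_recurrence_of_cover d hd δ hcon (h δ hδ)
  tfae_have 5 → 6 := by
    intro h δ hδ
    exact statRecurrence_of_recurrence d hd δ (h δ hδ)
  tfae_have 6 → 2 := by
    intro h δ hδ
    by_contra hcon
    push Not at hcon
    refine not_statRecurrence d hd δ (fun N => ?_) (h δ hδ)
    obtain ⟨S, h1, h2⟩ := hcon N
    exact ⟨S, h1, h2⟩
  tfae_finish

end Pool.Agent.Results.MP_90b327_co.FractionalColouring
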