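import Mathlib
import Pool.Agent.H720R3.Blocks

set_option autoImplicit false

namespace Pool.Agent.Results.MP_90b327_co.PolynomialFamilies

open Finset Pool.Agent.H720R3

/-- `cube d γ` is `γ^d`, the set of all `d`-tuples with entries in `γ`. -/
def cube {N : ℕ} (d : ℕ) (γ : Finset (Fin N)) : Finset (Fin d → Fin N) :=
  Fintype.piFinset (fun _ : Fin d => γ)

/-- A family `S` of subsets of `[N]^d` is good if there are `A ∈ S` and a nonempty `γ ⊆ [N]` with
`A ∩ γ^d = ∅` and `A ∪ γ^d ∈ S`. -/
def Good {N d : ℕ} (S : Finset (Finset (Fin d → Fin N))) : Prop :=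
  ∃ A ∈ S, ∃ γ : Finset (Fin N), γ.Nonempty ∧ Disjoint A (cube d γ) ∧ A ∪ cube d γ ∈ S

/-- The polynomial of degree at most `D` with coefficients `c` and values in the abelian group `G`:
`A ↦ ∑ c T`, the sum over all subsets `T ⊆ A` with at most `D` elements. -/
def poly {E G : Type} [AddCommGroup G] (D : ℕ) (c : Finset E → G) (A : Finset E) : G :=
  ∑ T ∈ A.powerset.filter (fun T => T.card ≤ D), c T

lemma partB (d : ℕ) (hd : 1 ≤ d) (D : ℕ) (G : Type) [AddCommGroup G] [Fintype G] (δ : ℝ)
    (hδ : 0 < δ) :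
    ∃ ε : ℝ, 0 < ε ∧ ∃ N₀ : ℕ, ∀ N : ℕ, N₀ ≤ N →
      ∀ (c : Finset (Fin d → Fin N) → G) (V : Set G) (F S : Finset (Finset (Fin d → Fin N))),
        (∀ A, A ∈ F ↔ poly D c A ∈ V) → δ * (2 : ℝ) ^ (N ^ d) ≤ F.card →
          ((F \ S).card : ℝ) ≤ ε * (2 : ℝ) ^ (N ^ d) → Good S := by
  classical
  obtain ⟨r, hr⟩ := exists_return (d * D) G
  set c₀ : ℕ := r ^ d with hc₀
  obtain ⟨M, hM⟩ := exists_nat_gt ((4 / δ ^ 2) * 2 ^ c₀)
  refine ⟨δ / (4 * 2 ^ c₀), by positivity, M * r, fun N hN c V F S hF hFc hFS => ?_⟩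
  by_contra hgood
  set μ : ℝ := (M : ℝ) / 2 ^ c₀ with hμ
  have hμ1 : 4 / δ ^ 2 < μ := by rw [hμ, lt_div_iff₀ (by positivity)]; exact hM
  have hμ0 : 0 < μ := lt_trans (by positivity) hμ1
  set W : ℝ := 2 ^ Fintype.card (Fin d → Fin N) with hW
  have hWe : W = (2 : ℝ) ^ (N ^ d) := by rw [hW]; simp
  have hW0 : 0 < W := by positivity
  rw [← hWe] at hFc hFS
  have hlow : μ * F.card - Real.sqrt μ * W ≤ ∑ A ∈ F, cnt (C d hN) (fun _ => ∅) A :=
    conc (C d hN) (fun _ => ∅) (fun j => empty_subset _) (fun j => by rw [card_C])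
      (C_disj hd hN) F
  -- the return property
  have hret : ∀ (j : Fin M) (A : Finset (Fin d → Fin N)), A ∩ C d hN j = ∅ →
      ∃ γ ⊆ T hN j, γ.Nonempty ∧ poly D c (A ∪ pw d γ) = poly D c A := by
    intro j A hA
    have hpw0 : pw d (∅ : Finset (Fin N)) = ∅ := by
      ext x
      simp only [mem_pw, notMem_empty, iff_false]
      intro h
      exact h ⟨0, hd⟩
    obtain ⟨γ, hγ, hne, he⟩ := hr (Fin N) (T hN j) (fun γ => poly D c (A ∪ pw d γ))
      (by rw [card_T]) (by
        refine deg_of_sum (univ.filter fun X : Finset (Fin d → Fin N) => X.card ≤ D)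
          (fun X => (X \ A).biUnion fun x => univ.image x) c ?_ _ _ ?_
        · intro X hX
          rw [mem_filter] at hX
          calc ((X \ A).biUnion fun x => univ.image x).card
              ≤ ∑ x ∈ X \ A, (univ.image x).card := card_biUnion_le
            _ ≤ ∑ _x ∈ X \ A, d := sum_le_sum fun x _ => by
                calc (univ.image x).card ≤ (univ : Finset (Fin d)).card := card_image_le
                  _ = d := by simp
            _ = (X \ A).card * d := by rw [sum_const, smul_eq_mul]
            _ ≤ D * d := Nat.mul_le_mul_right d ((card_le_card sdiff_subset).trans hX.2)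
            _ = d * D := mul_comm _ _
        · intro γ _
          show poly D c (A ∪ pw d γ) = _
          rw [poly, ← sum_filter]
          refine sum_congr ?_ fun _ _ => rfl
          ext X
          rw [mem_filter, mem_filter, mem_filter, mem_powerset]
          have hiff : X ⊆ A ∪ pw d γ ↔ (X \ A).biUnion (fun x => univ.image x) ⊆ γ := by
            constructor
            · intro h y hy
              rw [mem_biUnion] at hy
              obtain ⟨x, hx, hy⟩ := hy
              rw [mem_sdiff] at hx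
              rw [mem_image] at hy
              obtain ⟨i, -, rfl⟩ := hy
              have := (mem_union.1 (h hx.1)).resolve_left hx.2
              rw [mem_pw] at this
              exact this i
            · intro h x hx
              by_cases hxA : x ∈ A
              · exact mem_union_left _ hxA
              · refine mem_union_right _ (mem_pw.2 fun i => h ?_)
                rw [mem_biUnion]
                exact ⟨x, mem_sdiff.2 ⟨hx, hxA⟩, mem_image_of_mem _ (mem_univ i)⟩
          rw [hiff]
          simp only [mem_univ, true_and]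
          exact and_comm)
    refine ⟨γ, hγ, hne, ?_⟩
    simpa [hpw0] using he
  choose! γ hγ hγne hγe using hret
  -- pairs
  have hpair : ∀ (j : Fin M), ∀ A ∈ F, A ∩ C d hN j = ∅ →
      A ∈ F \ S ∨ A ∪ pw d (γ j A) ∈ F \ S := by
    intro j A hA hAj
    by_contra hcon
    rw [not_or, mem_sdiff, mem_sdiff, not_and, not_not, not_and, not_not] at hcon
    have h1 := hcon.1 hA
    have h2 : A ∪ pw d (γ j A) ∈ F := by
      rw [hF, hγe j A hAj]
      exact (hF A).1 hA
    have h3 := hcon.2 h2
    refine hgood ⟨A, h1, γ j A, hγne j A hAj, ?_, h3⟩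
    have : pw d (γ j A) ⊆ C d hN j := by
      intro x hx
      rw [C, mem_pw]
      rw [mem_pw] at hx
      exact fun i => hγ j A hAj (hx i)
    exact Finset.disjoint_of_subset_right this (disjoint_iff_inter_eq_empty.2 hAj)
  have hone : ∀ j : Fin M, ((F.filter fun A => A ∩ C d hN j = ∅).card : ℝ) ≤ 2 * (F \ S).card := by
    intro j
    have h1 : (F.filter fun A => A ∩ C d hN j = ∅) ⊆
        ((F \ S) ∪ (F.filter fun A => A ∩ C d hN j = ∅ ∧ A ∪ pw d (γ j A) ∈ F \ S)) := by
      intro A hA
      rw [mem_filter] at hA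
      rcases hpair j A hA.1 hA.2 with h | h
      · exact mem_union_left _ h
      · exact mem_union_right _ (mem_filter.2 ⟨hA.1, hA.2, h⟩)
    have h2 : (F.filter fun A => A ∩ C d hN j = ∅ ∧ A ∪ pw d (γ j A) ∈ F \ S).card
        ≤ (F \ S).card := by
      refine card_le_card_of_injOn (fun A => A ∪ pw d (γ j A)) ?_ ?_
      · intro A hA
        exact (mem_filter.1 (mem_coe.1 hA)).2.2
      · intro A hA B hB hAB
        have hA' := (mem_filter.1 (mem_coe.1 hA)).2.1
        have hB' := (mem_filter.1 (mem_coe.1 hB)).2.1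
        have key : ∀ X : Finset (Fin d → Fin N), X ∩ C d hN j = ∅ →
            (X ∪ pw d (γ j X)) \ C d hN j = X := by
          intro X hX
          have hsub : pw d (γ j X) ⊆ C d hN j := by
            intro x hx
            rw [C, mem_pw]
            rw [mem_pw] at hx
            exact fun i => hγ j X hX (hx i)
          rw [union_sdiff_distrib, sdiff_eq_empty_iff_subset.2 hsub, union_empty]
          exact sdiff_eq_self_iff_disjoint.2 (disjoint_iff_inter_eq_empty.2 hX)
        have hAB' : A ∪ pw d (γ j A) = B ∪ pw d (γ j B) := hAB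
        rw [← key A hA', ← key B hB', hAB']
    have h3 := (card_le_card h1).trans (card_union_le _ _)
    have h4 : (F.filter fun A => A ∩ C d hN j = ∅).card ≤ 2 * (F \ S).card := by omega
    exact_mod_cast h4
  have hup : ∑ A ∈ F, cnt (C d hN) (fun _ => ∅) A ≤ M * (2 * (F \ S).card) := by
    unfold cnt
    rw [sum_comm]
    calc _ ≤ ∑ _j : Fin M, (2 * (F \ S).card : ℝ) := by
          refine sum_le_sum fun j _ => ?_
          rw [Finset.sum_boole]
          exact hone j
      _ = _ := by simp
  have h5 : μ * (δ * W) ≤ μ * F.card := mul_le_mul_of_nonneg_left hFc hμ0.le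
  have hM0 : (M : ℝ) = μ * 2 ^ c₀ := by rw [hμ]; field_simp
  have h6 : (M : ℝ) * (2 * (F \ S).card) ≤ μ * δ / 2 * W := by
    calc (M : ℝ) * (2 * (F \ S).card) ≤ M * (2 * (δ / (4 * 2 ^ c₀) * W)) := by
          refine mul_le_mul_of_nonneg_left ?_ (Nat.cast_nonneg M)
          linarith
      _ = μ * δ / 2 * W := by
          rw [hM0]; field_simp; ring
  have h7 : μ * δ / 2 * W ≤ Real.sqrt μ * W := by linarith
  have h8 : μ * δ / 2 ≤ Real.sqrt μ := le_of_mul_le_mul_right h7 hW0
  have hs : Real.sqrt μ * Real.sqrt μ = μ := Real.mul_self_sqrt hμ0.le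
  have hs0 : 0 < Real.sqrt μ := Real.sqrt_pos.2 hμ0
  have h9 : Real.sqrt μ * δ ≤ 2 := by
    have : Real.sqrt μ * δ * Real.sqrt μ ≤ 2 * Real.sqrt μ := by
      calc Real.sqrt μ * δ * Real.sqrt μ = (Real.sqrt μ * Real.sqrt μ) * δ := by ring
        _ = μ * δ := by rw [hs]
        _ ≤ 2 * Real.sqrt μ := by linarith
    exact le_of_mul_le_mul_right this hs0
  have h10 : 2 / δ < Real.sqrt μ := by
    rw [Real.lt_sqrt (by positivity), div_pow]
    norm_num
    exact hμ1
  rw [div_lt_iff₀ hδ] at h10
  linarith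

/-- The restricted density polynomial Hales-Jewett statement holds, for every `d ≥ 1` and all positive
densities, for families defined by a polynomial of bounded degree with values in a finite abelian
group, even if a small proportion of all sets is removed from such a family: for all `D`, `G`, `δ`
there are `ε > 0` and `N₀` such that for `N ≥ N₀` every family `S` which contains all but at most
`ε 2^(N^d)` of the sets in some `F = {A : poly D c A ∈ V}` with at least `δ 2^(N^d)` elements is
good. -/
theorem result : ∀ d : ℕ, 1 ≤ d → ∀ D : ℕ, ∀ (G : Type) [AddCommGroup G] [Fintype G], ∀ δ : ℝ,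
    0 < δ → ∃ ε : ℝ, 0 < ε ∧ ∃ N₀ : ℕ, ∀ N : ℕ, N₀ ≤ N →
      ∀ (c : Finset (Fin d → Fin N) → G) (V : Set G) (F S : Finset (Finset (Fin d → Fin N))),
        (∀ A, A ∈ F ↔ poly D c A ∈ V) → δ * (2 : ℝ) ^ (N ^ d) ≤ F.card →
          ((F \ S).card : ℝ) ≤ ε * (2 : ℝ) ^ (N ^ d) → Good S :=
  fun d hd D G _ _ δ hδ => partB d hd D G δ hδ

end Pool.Agent.Results.MP_90b327_co.PolynomialFamilies
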